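import Mathlib

set_option autoImplicit false

namespace Pool.Agent.H.MP_7de56e_co

open Finset

variable {K G : Type} [Fintype K] [DecidableEq K] [AddCommGroup G] [Fintype G]

def res (blk : K → Fin 3) (i : Fin 3) : (K → ZMod 2) →+ (K → ZMod 2) where
  toFun x j := if blk j = i then x j else 0
  map_zero' := by funext j; simp
  map_add' x y := by funext j; by_cases h : blk j = i <;> simp [h]

omit [Fintype K] [DecidableEq K] in
lemma res_apply (blk : K → Fin 3) (i : Fin 3) (x : K → ZMod 2) (j : K) :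
    res blk i x j = if blk j = i then x j else 0 := rfl

omit [Fintype K] [DecidableEq K] in
lemma res_res (blk : K → Fin 3) (i l : Fin 3) (x : K → ZMod 2) :
    res blk i (res blk l x) = if i = l then res blk l x else 0 := by
  funext j
  by_cases h : i = l
  · subst h
    simp only [res_apply, if_true]
    split_ifs <;> rfl
  · simp only [res_apply, if_neg h, Pi.zero_apply]
    split_ifs <;> simp_all

lemma third (i l : Fin 3) (h : i ≠ l) : ∃ m : Fin 3, m ≠ i ∧ m ≠ l ∧ ∀ p, p = i ∨ p = l ∨ p = m := by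
  revert i l
  decide

lemma two_le (blk : K → Fin 3) (B : ℕ) (hB : ∀ l, 2 ^ Fintype.card {j // blk j = l} ≤ B)
    {i l : Fin 3} (h : i ≠ l) (y z : K → ZMod 2) :
    #{x : K → ZMod 2 | res blk i x = y ∧ res blk l x = z} ≤ B := by
  obtain ⟨m, -, -, hm⟩ := third i l h
  refine (card_le_card_of_injOn (t := univ) (fun x (j : {j // blk j = m}) => x j)
    (fun _ _ => mem_univ _) fun x hx x' hx' e => funext fun j => ?_).trans ?_
  · simp only [coe_filter, mem_univ, true_and, Set.mem_ofPred_eq] at hx hx'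
    rcases hm (blk j) with p | p | p
    · simpa [res_apply, p] using congrFun (hx.1.trans hx'.1.symm) j
    · simpa [res_apply, p] using congrFun (hx.2.trans hx'.2.symm) j
    · exact congrFun e ⟨j, p⟩
  · rw [card_univ, Fintype.card_fun, ZMod.card]
    exact hB m

omit [Fintype K] [DecidableEq K] in
lemma colour [Nonempty K] (blk : K → Fin 3) (t : (K → ZMod 2) → K) :
    ∃ c : (K → ZMod 2) → K, (∀ x : K → ZMod 2, x ≠ 0 → x (c x) ≠ 0) ∧
      (∀ x, res blk (blk (t x)) x ≠ 0 → blk (c x) = blk (t x)) ∧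
      (∀ x y, t x = t y → res blk (blk (t x)) x = res blk (blk (t x)) y →
        res blk (blk (t x)) x ≠ 0 → c y = c x) ∧ ∀ x, x (t x) ≠ 0 → c x = t x := by
  classical
  have : ∀ x : K → ZMod 2, ∃ j, x ≠ 0 → x j ≠ 0 := fun x => by
    by_cases h : x = 0
    · exact ⟨Classical.arbitrary K, fun a => absurd h a⟩
    · obtain ⟨j, hj⟩ := Function.ne_iff.1 h
      exact ⟨j, fun _ => hj⟩
  choose p hp using this
  have q : ∀ i x, res blk i x ≠ 0 → blk (p (res blk i x)) = i ∧ x (p (res blk i x)) ≠ 0 := by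
    intro i x h
    have := hp _ h
    rw [res_apply] at this
    split_ifs at this with e
    · exact ⟨e, this⟩
    · exact absurd rfl this
  refine ⟨fun x => if x (t x) ≠ 0 then t x else if res blk (blk (t x)) x ≠ 0 then
    p (res blk (blk (t x)) x) else p x, fun x h => ?_, fun x h => ?_, fun x y a b h => ?_,
    fun x h => if_pos h⟩
  · simp only
    split_ifs with a b
    · exact a
    · exact (q _ _ b).2
    · exact hp x h
  · simp only
    split_ifs with a
    · rfl
    · exact (q _ _ h).1
  · have e : x (t x) = y (t x) := by simpa [res_apply] using congrFun b (t x)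
    simp only [← a, ← b, ← e, if_pos h]

omit [Fintype K] [DecidableEq K] in
lemma aa (x : K → ZMod 2) : x + x = 0 := by
  funext j
  have : ∀ a : ZMod 2, a + a = 0 := by decide
  exact this _

lemma core [Nonempty K] (blk : K → Fin 3) (σ : (K → ZMod 2) →+ G)
    (sur : ∀ l s, ∃ δ, σ (res blk l δ) = s)
    (hB : ∀ l, 2 ^ Fintype.card {j // blk j = l} ≤ 2 * Fintype.card G)
    (hK : Fintype.card K * 15 ≤ Fintype.card G) :
    ∃ c : (K → ZMod 2) → K, (∀ x : K → ZMod 2, x ≠ 0 → x (c x) ≠ 0) ∧ ∀ j (u v : K → ZMod 2),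
      (∀ i, res blk i u ≠ 0) → (∀ i, res blk i v ≠ 0) → u j = 0 → v j ≠ 0 →
      #{x | (x ≠ 0 ∧ c x = j) ∧ ¬ ∀ i, res blk i (u + x) ≠ 0} <
        #{x | (x ≠ 0 ∧ c x = j) ∧ ¬ ∀ i, res blk i (v + x) ≠ 0} := by
  classical
  obtain ⟨ρ⟩ : Nonempty (K × Fin 15 ↪ G) := Function.Embedding.nonempty_of_card_le (by simpa using hK)
  obtain ⟨τ, hτ⟩ : ∃ τ : G → K, ∀ p, τ (ρ p) = p.1 :=
    ⟨fun s => (Function.invFun ρ s).1, fun p => congrArg Prod.fst (Function.leftInverse_invFun ρ.injective p)⟩
  choose δ hδ using sur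
  obtain ⟨c, c1, c2, c3, c4⟩ := colour blk fun x => τ (σ x)
  refine ⟨c, c1, fun j u v hu hv uj vj => ?_⟩
  obtain ⟨i, hi⟩ := exists_ne (blk j)
  obtain ⟨l, li, lj, all⟩ := third i (blk j) hi
  have tw := fun {i l : Fin 3} (h : i ≠ l) => two_le blk _ hB h
  have ze : ∀ i (y x : K → ZMod 2), res blk i (y + x) = 0 ↔ res blk i x = res blk i y := by
    intro i y x
    rw [map_add]
    exact ⟨fun h => add_left_cancel (h.trans (aa _).symm), fun h => by rw [h, aa]⟩
  let P : Fin 3 → (K → ZMod 2) → Finset (K → ZMod 2) := fun i y =>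
    {x | res blk i x = res blk i y ∧ res blk (blk (τ (σ x))) x ≠ 0 ∧ c x = j}
  have eqP : ∀ i l, i ≠ blk j → l ≠ i → l ≠ blk j → #(P i u) ≤ #(P i v) := by
    intro i l a b d
    refine card_le_card_of_injOn
      (fun x => x + (res blk i (v - u) + res blk l (δ l (-σ (res blk i (v - u))))))
      (fun x hx => ?_) fun x _ y _ e => add_right_cancel e
    simp only [P, coe_filter, mem_univ, true_and, Set.mem_ofPred_eq] at hx ⊢
    obtain ⟨x1, x2, x3⟩ := hx
    have s1 : σ (x + (res blk i (v - u) + res blk l (δ l (-σ (res blk i (v - u)))))) = σ x := by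
      rw [map_add, map_add, hδ]
      simp
    have s2 : blk (τ (σ x)) = blk j := by rw [← c2 x x2, x3]
    have s3 : res blk (blk j) (x + (res blk i (v - u) +
        res blk l (δ l (-σ (res blk i (v - u)))))) = res blk (blk j) x := by
      rw [map_add, map_add, res_res, res_res, if_neg a.symm, if_neg d.symm]
      simp
    refine ⟨?_, by rw [s1, s2, s3, ← s2]; exact x2, ?_⟩
    · rw [map_add, map_add, res_res, res_res, if_pos rfl, if_neg b.symm, x1, map_sub]
      simp
    · rw [← x3]
      exact c3 x _ (by rw [s1]) (by rw [s2, s3]) x2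
  let Z : Fin 3 → Fin 3 → Finset (K → ZMod 2) := fun i l =>
    {x | res blk i x = res blk i u ∧ res blk l x = 0}
  have up : ({x | (x ≠ 0 ∧ c x = j) ∧ ¬ ∀ i, res blk i (u + x) ≠ 0} : Finset (K → ZMod 2)) ⊆
      (P i u ∪ P l u) ∪ ((Z i l ∪ Z i (blk j)) ∪ (Z l i ∪ Z l (blk j))) := by
    intro x hx
    simp only [mem_filter, mem_univ, true_and, not_forall, not_not, ze] at hx
    obtain ⟨⟨x0, xj⟩, m, hm⟩ := hx
    have nj : m ≠ blk j := by
      rintro rfl
      have := congrFun hm j
      simp only [res_apply, if_true] at this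
      exact c1 x x0 (by rw [xj, this, uj])
    simp only [P, Z, mem_union, mem_filter, mem_univ, true_and]
    by_cases mn : res blk (blk (τ (σ x))) x = 0
    · right
      have n2 : blk (τ (σ x)) ≠ m := fun e => hu m (by rw [← hm, ← e, mn])
      rcases all m with rfl | rfl | rfl
      · rcases all (blk (τ (σ x))) with e | e | e
        · exact absurd e n2
        · exact Or.inl (Or.inr ⟨hm, e ▸ mn⟩)
        · exact Or.inl (Or.inl ⟨hm, e ▸ mn⟩)
      · exact absurd rfl nj
      · rcases all (blk (τ (σ x))) with e | e | e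
        · exact Or.inr (Or.inl ⟨hm, e ▸ mn⟩)
        · exact Or.inr (Or.inr ⟨hm, e ▸ mn⟩)
        · exact absurd e n2
    · left
      rcases all m with rfl | rfl | rfl
      · exact Or.inl ⟨hm, mn, xj⟩
      · exact absurd rfl nj
      · exact Or.inr ⟨hm, mn, xj⟩
  let T : Finset (K → ZMod 2) := {x | res blk (blk j) x = res blk (blk j) v ∧ τ (σ x) = j}
  have dn : T ∪ (P i v ∪ P l v) ⊆
      ({x | (x ≠ 0 ∧ c x = j) ∧ ¬ ∀ i, res blk i (v + x) ≠ 0} : Finset (K → ZMod 2)) := by
    intro x hx
    simp only [T, P, mem_union, mem_filter, mem_univ, true_and, not_forall, not_not, ze] at hx ⊢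
    have n0 : ∀ m, res blk m x = res blk m v → x ≠ 0 := fun m h e =>
      hv m (by rw [← h, e, map_zero])
    rcases hx with h | h | h
    · have := congrFun h.1 j
      simp only [res_apply, if_true] at this
      exact ⟨⟨n0 _ h.1, (c4 x (by rw [h.2, this]; exact vj)).trans h.2⟩, _, h.1⟩
    · exact ⟨⟨n0 _ h.1, h.2.2⟩, _, h.1⟩
    · exact ⟨⟨n0 _ h.1, h.2.2⟩, _, h.1⟩
  have big : 15 * Fintype.card G ≤ #T := by
    have sg : ∀ p : Fin 15 × G, σ (res blk (blk j) v + (res blk i (δ i p.2) +
        res blk l (δ l (ρ (j, p.1) - σ (res blk (blk j) v) - p.2)))) = ρ (j, p.1) := fun p => by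
      rw [map_add, map_add, hδ, hδ]
      abel
    refine le_trans (by simp) (card_le_card_of_injOn (s := (univ : Finset (Fin 15 × G)))
      (fun p => res blk (blk j) v + (res blk i (δ i p.2) +
        res blk l (δ l (ρ (j, p.1) - σ (res blk (blk j) v) - p.2)))) (fun p _ => ?_)
      fun p _ q _ e => Prod.ext ?_ ?_)
    · simp only [T, coe_filter, mem_univ, true_and, Set.mem_ofPred_eq]
      refine ⟨?_, by rw [sg, hτ]⟩
      rw [map_add, map_add, res_res, res_res, res_res, if_pos rfl, if_neg hi.symm, if_neg lj.symm]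
      simp
    · have := congrArg σ e
      simp only [sg] at this
      exact (Prod.ext_iff.1 (ρ.injective this)).2
    · have := congrArg (fun x => σ (res blk i x)) e
      simpa only [map_add, res_res, if_neg hi, if_true, if_neg li.symm, hδ, map_zero, zero_add,
        add_zero] using this
  have i1 : #(P i v ∩ P l v) ≤ 2 * Fintype.card G :=
    (card_le_card fun x hx => by
      simp only [P, mem_inter, mem_filter, mem_univ, true_and] at hx ⊢
      exact ⟨hx.1.1, hx.2.1⟩).trans (tw li.symm (res blk i v) (res blk l v))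
  have i2 : #(T ∩ (P i v ∪ P l v)) ≤ 2 * Fintype.card G + 2 * Fintype.card G := by
    rw [inter_union_distrib_left]
    refine (card_union_le _ _).trans (Nat.add_le_add ((card_le_card fun x hx => ?_).trans
      (tw hi (res blk i v) (res blk (blk j) v))) ((card_le_card fun x hx => ?_).trans
      (tw lj (res blk l v) (res blk (blk j) v)))) <;>
    · simp only [T, P, mem_inter, mem_filter, mem_univ, true_and] at hx ⊢
      exact ⟨hx.2.1, hx.1.1⟩
  have a1 := card_le_card up
  have a2 := card_le_card dn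
  have a3 := card_union_add_card_inter T (P i v ∪ P l v)
  have a4 := card_union_add_card_inter (P i v) (P l v)
  have a5 := eqP i l hi li lj
  have a6 := eqP l i lj li.symm hi
  have a7 := card_union_le (P i u ∪ P l u) ((Z i l ∪ Z i (blk j)) ∪ (Z l i ∪ Z l (blk j)))
  have a8 := card_union_le (P i u) (P l u)
  have a9 := card_union_le (Z i l ∪ Z i (blk j)) (Z l i ∪ Z l (blk j))
  have b1 := card_union_le (Z i l) (Z i (blk j))
  have b2 := card_union_le (Z l i) (Z l (blk j))
  have b3 : #(Z i l) ≤ _ := tw li.symm _ _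
  have b4 : #(Z i (blk j)) ≤ _ := tw hi _ _
  have b5 : #(Z l i) ≤ _ := tw li _ _
  have b6 : #(Z l (blk j)) ≤ _ := tw lj _ _
  have b7 : 0 < Fintype.card G := Fintype.card_pos
  omega

lemma small (blk : K → Fin 3) (σ : (K → ZMod 2) →+ G) (sur : ∀ l s, ∃ δ, σ (res blk l δ) = s) :
    #{x : K → ZMod 2 | ¬ ∀ i, res blk i x ≠ 0} * Fintype.card G ≤ 3 * 2 ^ Fintype.card K := by
  classical
  choose δ hδ using sur
  have h : ∀ i, #{x : K → ZMod 2 | res blk i x = 0} * Fintype.card G ≤ 2 ^ Fintype.card K := by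
    intro i
    rw [← card_univ, ← card_product]
    refine (card_le_card_of_injOn (t := univ) (fun p => p.1 + res blk i (δ i p.2))
      (fun _ _ => mem_univ _) fun p hp q hq e => ?_).trans (by simp)
    simp only [coe_product, coe_filter, mem_univ, true_and, Set.mem_prod, Set.mem_ofPred_eq] at hp hq
    have a : p.2 = q.2 := by
      have := congrArg (fun x => σ (res blk i x)) e
      simpa only [map_add, res_res, if_true, hδ, hp.1, hq.1, map_zero, zero_add] using this
    simp only [a] at e
    exact Prod.ext (add_right_cancel e) a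
  have s : ({x : K → ZMod 2 | ¬ ∀ i, res blk i x ≠ 0} : Finset _) ⊆
      univ.biUnion fun i => {x : K → ZMod 2 | res blk i x = 0} := fun x hx => by
    simpa using hx
  refine (Nat.mul_le_mul_right _ ((card_le_card s).trans card_biUnion_le)).trans ?_
  rw [sum_mul]
  exact (sum_le_sum fun i _ => h i).trans (by simp)

end Pool.Agent.H.MP_7de56e_co
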